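import Pool.Agent.Helper53.CX.M_Ext
import Pool.Agent.Helper53.CX.M_Mon
import Pool.Agent.Helper53.CX.M_Pad
import Pool.Agent.Helper53.CX.M_TorV
import Pool.Agent.Helper53.CX.M_TorOm
import Pool.Agent.Helper53.CX.M_PadV
import Pool.Agent.Helper53.CX.M_Fac
import Pool.Agent.Helper53.CX.M_Bri
import Pool.Agent.Helper53.CX.M_MonL
import Pool.Agent.Helper53.CX.M_Der
import Pool.Agent.Helper53.CX.M_JacEx
import Pool.Agent.Helper53.CX.M_Norm
import Pool.Agent.Helper53.CX.M_Trc
import Pool.Agent.Helper53.CX.M_Cvx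
import Pool.Agent.Helper53.CX.M_Rig
import Pool.Agent.Helper53.CX.M_Rnk
import Pool.Agent.Helper53.CX.M_Tau
import Pool.Agent.Helper53.CX.M_Gen
import Pool.Agent.Helper53.CX.M_Pull
import Pool.Agent.Helper53.CX.M_JacT
import Pool.Agent.Helper53.CX.M_OmT
import Pool.Agent.Helper53.CX.M_LC
import Pool.Agent.Helper53.CX.M_TorT
import Pool.Agent.Helper53.CX.M_Poly
import Pool.Agent.Helper53.CX.M_GL
import Pool.Agent.Helper53.CX.M_Phi
import Pool.Agent.Helper53.CX.M_Fil
import Pool.Agent.Helper53.CX.M_Iz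
import Pool.Agent.Helper53.CX.M_CI
import Pool.Agent.Helper53.CX.M_CII
import Pool.Agent.Helper53.CX.M_Pt
import Pool.Agent.Helper53.CX.M_Vmin
import Pool.Agent.Helper53.CX.M_BasI
import Pool.Agent.Helper53.CX.M_BasII
import Pool.Agent.Helper53.CX.M_Uniq
import Pool.Agent.Helper53.CX.M_Prj
import Pool.Agent.Helper53.CX.M_Stab
import Pool.Agent.Helper53.CX.M_Comb
import Pool.Agent.Helper53.CX.M_Glc
import Pool.Agent.Helper53.CX.M_PnI
import Pool.Agent.Helper53.CX.M_PnII
import Pool.Agent.Helper53.CX.M_PT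
import Pool.Agent.Helper53.CX.M_Deg
import Pool.Agent.Helper53.CX.M_EqA
import Pool.Agent.Helper53.CX.M_EqB
import Pool.Agent.Helper53.CX.M_Fin2

/-!
# MP_140278_ag: equality in the generalized complexity bound, contractions to projective space

Let `(X,B,M)` be a generalized log Calabi-Yau pair on a normal projective variety `X` with function
field `C(x_1,...,x_n)`, with nef part `∑ b_i M_i`, `M_i` nef Cartier (on some higher model, not
necessarily semiample) and not principal. Suppose that every prime divisor of `P^n` is a prime divisor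
of `X` or a glc place of `(X,B,M)`, in particular this holds if there is a birational contraction
`X ⇢ P^n`. If `∑ a_i + ∑ b_i ≥ dim X + rank Cl(X)` then `X` is a toric variety.
-/

open scoped BigOperators

namespace Pool.Agent.Results.MP_140278_ag.ProjectiveSpaceToric

open Pool.Agent.Helper53.CX

theorem result {n : ℕ} (hn : 0 < n) (X : ProjVar n) {ι : Type} [Fintype ι] (p : PairData n ι)
    (hp : IsGenLCY X.primeDivisors p)
    (hX : ∀ v : DivVal (Kn n), IsPrimeOfProjSpace v → v ∈ X.primeDivisors ∨ p.B v = 1)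
    (C : Finset (DivVal (Kn n))) (hC : (C : Set (DivVal (Kn n))) ⊆ X.primeDivisors)
    (ρ : ℕ) (hρ : Module.rank ℝ (Cl X.primeDivisors) = (ρ : Cardinal))
    (h : (n : ℝ) + ρ ≤ ∑ v ∈ C, p.B v + ∑ i, p.b i) :
    IsToricVariety X.primeDivisors := by
  have hTorV := hTorV hExt hMon
  have hTorOm := hTorOm hExt hMon
  have hPadV := hPadV hExt hPad
  have hFac := hFac hExt hPad
  have hBri := hBri hExt hMon hPad
  have hMonL := hMonL hExt hMon
  have hNorm := hNorm hExt hPad hPadV hFac
  have hTrc := hTrc hExt hMon hTorV hMonL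
  have hRig := hRig hExt hMon hTorV hMonL hDer
  have hRnk := hRnk hExt hPad hPadV hFac hBri
  have hJacEx := hJacEx hDer
  have hPull := hPull hJacEx
  have hJacT := hJacT hGen
  have hOmT := hOmT hPull hJacT hGen
  have hLC := hLC hJacEx hExt hMon hBri
  have hTorT := hTorT hExt hMon hTorV hTorOm hGen
  have hPoly := hPoly hExt hMon hTorV
  have hGL := hGL hGen
  have hPhi := hPhi hExt hMon hTorV
  have hFil := hFil hExt hMon
  have hIz := hIz hDer
  have hCI := hCI hIz
  have hCII := hCII hTau hGen hIz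
  have hVmin := hVmin hGen
  have hBasI := hBasI hGen hPt hVmin
  have hBasII := hBasII hGen hPt hVmin
  have hUniq := hUniq hTau hGen hGL hPhi hFil hTorT hVmin
  have hPrj := hPrj hGen hCI hCII hBasI hBasII hUniq hVmin
  have hStab := hStab hTau hGen hOmT hTorT hVmin
  have hGlc := hGlc hTau hGen hOmT hLC hBri hVmin
  have hPnI := hPnI hExt hMon hPad hPadV hBri
  have hPnII := hPnII hExt hMon hPad hTorOm hPadV hBri hGen hVmin
  have hPT := hPT hTau hGen hVmin hPnI
  have hDeg := hDeg hExt hMon hPad hTorV hTorOm hPadV hFac hBri hMonL hNorm hTrc hCvx hRig hPoly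
  have hEqA := hEqA hBri hPadV hRnk
  have hEqB := hEqB hGen hVmin hPrj
  exact hFin2 hTau hGen hOmT hLC hBri hPnI hPnII hPT hDeg hEqA hEqB hStab hComb hGlc
    n ι X.primeDivisors p hn hp hX C ρ hC hρ h

end Pool.Agent.Results.MP_140278_ag.ProjectiveSpaceToric
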